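import Pool.Agent.N842.TP.Ana2

/-!
# Euler products over the prime numbers near the edge of absolute convergence
-/

set_option autoImplicit false

namespace Pool.Agent.N842.TW

open Finset Filter Topology
open Pool.Agent.N842.TP (pr_two diff_rpow main_diff)
open Pool.Agent.TH894.NF (pr pr_prime)

/-- the terms of the logarithm of an Euler factor -/
noncomputable def trm (j k : ℕ) (s : ℝ) : ℝ := (pr j : ℝ) ^ (-(((k : ℝ) + 1) * s)) / ((k : ℝ) + 1)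

lemma p2 (j : ℕ) : (2 : ℝ) ≤ pr j := by exact_mod_cast (pr_prime j).two_le

lemma trm_nonneg (j k : ℕ) (s : ℝ) : 0 ≤ trm j k s := by
  unfold trm
  positivity

lemma trm_eq (j k : ℕ) (s : ℝ) : trm j k s = ((pr j : ℝ) ^ (-s)) ^ (k + 1) / ((k : ℝ) + 1) := by
  unfold trm
  have h := p2 j
  rw [← Real.rpow_natCast, ← Real.rpow_mul (by linarith)]
  congr 2
  push_cast
  ring

lemma half (j : ℕ) {s : ℝ} (hs : 1 ≤ s) : (pr j : ℝ) ^ (-s) ≤ 1 / 2 := by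
  have h := p2 j
  calc (pr j : ℝ) ^ (-s) ≤ (pr j : ℝ) ^ (-1 : ℝ) := Real.rpow_le_rpow_of_exponent_le (by linarith) (by linarith)
    _ = 1 / (pr j : ℝ) := by rw [Real.rpow_neg_one, one_div]
    _ ≤ 1 / 2 := one_div_le_one_div_of_le (by norm_num) h

lemma trm_hasSum (j : ℕ) {s : ℝ} (hs : 1 ≤ s) : HasSum (fun k => trm j k s) (-Real.log (1 - (pr j : ℝ) ^ (-s))) := by
  have h1 := half j hs
  have h2 : 0 ≤ (pr j : ℝ) ^ (-s) := by positivity
  have h3 := Real.hasSum_pow_div_log_of_abs_lt_one (x := (pr j : ℝ) ^ (-s)) (by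
    rw [abs_of_nonneg h2]
    linarith)
  have h4 : (fun k => trm j k s) = fun k : ℕ => ((pr j : ℝ) ^ (-s)) ^ (k + 1) / ((k : ℝ) + 1) := funext fun k => trm_eq j k s
  rw [h4]
  exact h3

lemma log_le (j : ℕ) {s : ℝ} (hs : 1 ≤ s) : -Real.log (1 - (pr j : ℝ) ^ (-s)) ≤ 2 * (pr j : ℝ) ^ (-s) := by
  have h1 := half j hs
  have h2 : 0 ≤ (pr j : ℝ) ^ (-s) := by positivity
  obtain ⟨x, hx⟩ : ∃ x : ℝ, x = (pr j : ℝ) ^ (-s) := ⟨_, rfl⟩
  rw [← hx] at h1 h2 ⊢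
  rw [← Real.log_inv]
  have h3 := Real.log_le_sub_one_of_pos (show 0 < (1 - x)⁻¹ from inv_pos.2 (by linarith))
  have h4 : (1 - x)⁻¹ - 1 ≤ 2 * x := by
    have h5 : (1 - x)⁻¹ ≤ 1 + 2 * x := by
      rw [inv_le_comm₀ (by linarith) (by linarith), inv_le_iff_one_le_mul₀ (by linarith)]
      nlinarith
    linarith
  linarith

lemma pr_summable {s : ℝ} (hs : 1 < s) : Summable (fun j : ℕ => (pr j : ℝ) ^ (-s)) := by
  have h1 : Summable (fun j : ℕ => 1 / ((j : ℝ) + 1) ^ s) := by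
    have h2 := (Real.summable_one_div_nat_rpow.2 hs)
    have h3 := (summable_nat_add_iff 1).2 h2
    refine h3.congr fun j => ?_
    push_cast
    rfl
  refine Summable.of_nonneg_of_le (fun j => by positivity) (fun j => ?_) h1
  rw [Real.rpow_neg (by positivity), ← one_div]
  apply one_div_le_one_div_of_le (by positivity)
  apply Real.rpow_le_rpow (by positivity) _ (by linarith)
  have := pr_two j
  exact_mod_cast (by omega : j + 1 ≤ pr j)

/-- the logarithms of the Euler factors -/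
noncomputable def dp (b : ℕ → ℕ → ℝ) (s : ℝ) (j : ℕ) : ℝ := ∑' k : ℕ, b j (k + 1) * trm j k s

lemma dp_term {b : ℕ → ℕ → ℝ} {B : ℝ} (hb : ∀ j k, |b j (k + 1)| ≤ B) (j : ℕ) {s : ℝ} (hs : 1 ≤ s) :
    Summable (fun k : ℕ => b j (k + 1) * trm j k s) := by
  refine Summable.of_norm_bounded (g := fun k => B * trm j k s) ((trm_hasSum j hs).summable.mul_left _) fun k => ?_
  rw [norm_mul, Real.norm_eq_abs, Real.norm_eq_abs, abs_of_nonneg (trm_nonneg j k s)]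
  exact mul_le_mul_of_nonneg_right (hb j k) (trm_nonneg j k s)

lemma dp_abs {b : ℕ → ℕ → ℝ} {B : ℝ} (hB : 0 ≤ B) (hb : ∀ j k, |b j (k + 1)| ≤ B) (j : ℕ) {s : ℝ} (hs : 1 ≤ s) :
    |dp b s j| ≤ 2 * B * (pr j : ℝ) ^ (-s) := by
  unfold dp
  have h1 : ‖∑' k : ℕ, b j (k + 1) * trm j k s‖ ≤ B * (-Real.log (1 - (pr j : ℝ) ^ (-s))) := by
    refine tsum_of_norm_bounded ((trm_hasSum j hs).mul_left B) fun k => ?_
    rw [norm_mul, Real.norm_eq_abs, Real.norm_eq_abs, abs_of_nonneg (trm_nonneg j k s)]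
    exact mul_le_mul_of_nonneg_right (hb j k) (trm_nonneg j k s)
  rw [← Real.norm_eq_abs]
  refine h1.trans ?_
  have h2 := mul_le_mul_of_nonneg_left (log_le j hs) hB
  linarith

lemma dp_summable {b : ℕ → ℕ → ℝ} {B : ℝ} (hB : 0 ≤ B) (hb : ∀ j k, |b j (k + 1)| ≤ B) {s : ℝ} (hs : 1 < s) : Summable (fun j : ℕ => dp b s j) := by
  refine Summable.of_norm_bounded (g := fun j : ℕ => 2 * B * (pr j : ℝ) ^ (-s)) ((pr_summable hs).mul_left _) fun j => ?_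
  rw [Real.norm_eq_abs]
  exact dp_abs hB hb j hs.le

/-- the higher terms -/
lemma dp_diff {b : ℕ → ℕ → ℝ} {B : ℝ} (hB : 0 ≤ B) (hb : ∀ j k, |b j (k + 1)| ≤ B) (j : ℕ)
    {s s' : ℝ} (hs : 1 ≤ s) (hs' : 1 ≤ s') :
    |dp b s j - dp b s' j - b j 1 * ((pr j : ℝ) ^ (-s) - (pr j : ℝ) ^ (-s'))| ≤ 4 * B * |s - s'| * (pr j : ℝ) ^ (-(3 / 2 : ℝ)) := by
  have hq2' := p2 j
  obtain ⟨q, hq⟩ : ∃ q : ℝ, q = (pr j : ℝ) := ⟨_, rfl⟩
  have hq2 : 2 ≤ q := by rw [hq]; exact hq2'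
  have hq0 : 0 < q := by linarith
  have h1 : dp b s j - dp b s' j - b j 1 * (q ^ (-s) - q ^ (-s')) =
      ∑' k : ℕ, b j (k + 2) * (trm j (k + 1) s - trm j (k + 1) s') := by
    have h2 : dp b s j - dp b s' j = ∑' k : ℕ, b j (k + 1) * (trm j k s - trm j k s') := by
      unfold dp
      rw [← Summable.tsum_sub (dp_term hb j hs) (dp_term hb j hs')]
      exact tsum_congr fun k => by ring
    have h3 : Summable (fun k : ℕ => b j (k + 1) * (trm j k s - trm j k s')) := by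
      have := (dp_term hb j hs).sub (dp_term hb j hs')
      refine this.congr fun k => ?_
      ring
    rw [h2, h3.tsum_eq_zero_add]
    have h4 : trm j 0 s = q ^ (-s) := by
      unfold trm
      rw [← hq]
      simp
    have h5 : trm j 0 s' = q ^ (-s') := by
      unfold trm
      rw [← hq]
      simp
    rw [h4, h5]
    ring
  rw [← hq, h1]
  have hlog : Real.log q ≤ 2 * q ^ (1 / 2 : ℝ) := by
    have h2 : 0 < q ^ (1 / 2 : ℝ) := by positivity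
    have h3 := Real.log_le_sub_one_of_pos h2
    rw [Real.log_rpow hq0] at h3
    linarith
  have hlog0 : 0 ≤ Real.log q := Real.log_nonneg (by linarith)
  have hterm : ∀ k : ℕ, |trm j (k + 1) s - trm j (k + 1) s'| ≤ |s - s'| * (Real.log q * q ^ (-(2 : ℝ))) * (1 / 2) ^ k := by
    intro k
    unfold trm
    rw [← hq]
    push_cast
    rw [← sub_div, abs_div, abs_of_pos (by positivity : (0 : ℝ) < (k : ℝ) + 1 + 1), div_le_iff₀ (by positivity)]
    have e1 : ∀ s : ℝ, q ^ (-(((k : ℝ) + 1 + 1) * s)) = (q ^ ((k : ℝ) + 1 + 1)) ^ (-s) := by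
      intro s
      rw [← Real.rpow_mul hq0.le]
      congr 1
      ring
    rw [e1, e1]
    have hx1 : 1 ≤ q ^ ((k : ℝ) + 1 + 1) := Real.one_le_rpow (by linarith) (by positivity)
    have h2 := diff_rpow (x := q ^ ((k : ℝ) + 1 + 1)) (σ := 1) (s := s) (s' := s') hx1 hs hs'
    refine h2.trans ?_
    rw [Real.log_rpow hq0, ← Real.rpow_mul hq0.le]
    have e2 : q ^ (((k : ℝ) + 1 + 1) * (-1)) = q ^ (-(2 : ℝ)) * q ^ (-(k : ℝ)) := by
      rw [← Real.rpow_add hq0]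
      congr 1
      ring
    have e3 : q ^ (-(k : ℝ)) ≤ (1 / 2) ^ k := by
      rw [Real.rpow_neg hq0.le, Real.rpow_natCast, one_div, inv_pow]
      exact inv_anti₀ (by positivity) (pow_le_pow_left₀ (by norm_num) hq2 k)
    rw [e2]
    have e4 : 0 ≤ |s - s'| * (((k : ℝ) + 1 + 1) * Real.log q) * q ^ (-(2 : ℝ)) := by positivity
    calc |s - s'| * (((k : ℝ) + 1 + 1) * Real.log q * (q ^ (-(2 : ℝ)) * q ^ (-(k : ℝ)))) =
        |s - s'| * (((k : ℝ) + 1 + 1) * Real.log q) * q ^ (-(2 : ℝ)) * q ^ (-(k : ℝ)) := by ring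
      _ ≤ |s - s'| * (((k : ℝ) + 1 + 1) * Real.log q) * q ^ (-(2 : ℝ)) * (1 / 2) ^ k := mul_le_mul_of_nonneg_left e3 e4
      _ = _ := by ring
  have hgeo : HasSum (fun k : ℕ => B * (|s - s'| * (Real.log q * q ^ (-(2 : ℝ)))) * (1 / 2 : ℝ) ^ k)
      (B * (|s - s'| * (Real.log q * q ^ (-(2 : ℝ)))) * 2) := by
    apply HasSum.mul_left
    exact hasSum_geometric_two
  rw [← Real.norm_eq_abs]
  refine (tsum_of_norm_bounded hgeo fun k => ?_).trans ?_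
  · rw [norm_mul, Real.norm_eq_abs, Real.norm_eq_abs]
    have h3 := mul_le_mul (hb j (k + 1)) (hterm k) (abs_nonneg _) hB
    refine h3.trans (le_of_eq ?_)
    ring
  · have h4 : Real.log q * q ^ (-(2 : ℝ)) ≤ 2 * q ^ (-(3 / 2 : ℝ)) := by
      have h5 : q ^ (-(3 / 2 : ℝ)) = q ^ (1 / 2 : ℝ) * q ^ (-(2 : ℝ)) := by
        rw [← Real.rpow_add hq0]
        norm_num
      rw [h5]
      have h6 : 0 < q ^ (-(2 : ℝ)) := by positivity
      nlinarith
    have h7 : 0 ≤ B * |s - s'| * 2 := by positivity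
    calc B * (|s - s'| * (Real.log q * q ^ (-(2 : ℝ)))) * 2 = B * |s - s'| * 2 * (Real.log q * q ^ (-(2 : ℝ))) := by ring
      _ ≤ B * |s - s'| * 2 * (2 * q ^ (-(3 / 2 : ℝ))) := mul_le_mul_of_nonneg_left h4 h7
      _ = _ := by ring

/-- **the differences of the logarithms** -/
theorem totalp (B : ℝ) (hB : 0 ≤ B) {β : ℝ} (hβ0 : 0 < β) (hβ1 : β < 1) : ∃ C₂ : ℝ, 0 ≤ C₂ ∧ ∀ (b : ℕ → ℕ → ℝ), (∀ j k, |b j (k + 1)| ≤ B) →
    ∀ C₁ : ℝ, 0 ≤ C₁ → ∀ y x : ℕ, 3 ≤ y → y ≤ x →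
    (∀ u, y ≤ u → u ≤ x → |∑ j ∈ range u, b j 1| ≤ C₁ * (u : ℝ) ^ β) →
    ∀ s s' : ℝ, 1 < s → s ≤ 2 → 1 < s' → s' ≤ 2 → 1 ≤ (s - 1) * Real.log x → 1 ≤ (s' - 1) * Real.log x →
      |∑' j : ℕ, dp b s j - ∑' j : ℕ, dp b s' j| ≤
        C₂ * (|s - s'| * Real.log y + C₁ * (y : ℝ) ^ (β - 1) + ((x : ℝ) ^ (1 - s) + (x : ℝ) ^ (1 - s'))) := by
  obtain ⟨C, hC, hmain⟩ := main_diff hβ0 hβ1
  obtain ⟨W, hW⟩ : ∃ W : ℝ, W = ∑' j : ℕ, (pr j : ℝ) ^ (-(3 / 2 : ℝ)) := ⟨_, rfl⟩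
  have hWs : Summable (fun j : ℕ => (pr j : ℝ) ^ (-(3 / 2 : ℝ))) := pr_summable (by norm_num)
  have hW0 : 0 ≤ W := by
    rw [hW]
    exact tsum_nonneg fun v => by positivity
  refine ⟨C * (B + 1) + 4 * B * W, by positivity, fun b hb C₁ hC₁ y x hy hyx hS s s' hs hs2 hs' hs2' hsx hsx' => ?_⟩
  have hy0 : (0 : ℝ) < y := by exact_mod_cast (by omega : 0 < y)
  have hx0 : (0 : ℝ) < x := by exact_mod_cast (by omega : 0 < x)
  have hly : 1 ≤ Real.log y := by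
    have h3 : (Real.exp 1) ≤ y := by
      have := Real.exp_one_lt_d9
      have h4 : (3 : ℝ) ≤ y := by exact_mod_cast hy
      linarith
    exact (Real.le_log_iff_exp_le hy0).2 h3
  -- the finite sums
  have hfin : ∀ T : ℕ, |∑ j ∈ range T, dp b s j - ∑ j ∈ range T, dp b s' j| ≤
      (C * (B + 1) + 4 * B * W) * (|s - s'| * Real.log y + C₁ * (y : ℝ) ^ (β - 1) + ((x : ℝ) ^ (1 - s) + (x : ℝ) ^ (1 - s'))) := by
    intro T
    have e1 : ∑ j ∈ range T, dp b s j - ∑ j ∈ range T, dp b s' j =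
        ∑ j ∈ range T, (dp b s j - dp b s' j - b j 1 * ((pr j : ℝ) ^ (-s) - (pr j : ℝ) ^ (-s'))) +
        ∑ j ∈ range T, b j 1 * ((pr j : ℝ) ^ (-s) - (pr j : ℝ) ^ (-s')) := by
      rw [← sum_add_distrib, ← sum_sub_distrib]
      exact sum_congr rfl fun v _ => by ring
    rw [e1]
    have b1 : |∑ j ∈ range T, (dp b s j - dp b s' j - b j 1 * ((pr j : ℝ) ^ (-s) - (pr j : ℝ) ^ (-s')))| ≤ 4 * B * |s - s'| * W := by
      refine (abs_sum_le_sum_abs _ _).trans ?_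
      refine (sum_le_sum fun j _ => dp_diff hB hb j hs.le hs'.le).trans ?_
      rw [← mul_sum, hW]
      exact mul_le_mul_of_nonneg_left (hWs.sum_le_tsum _ fun m _ => by positivity) (by positivity)
    have b3 : |∑ j ∈ range T, b j 1 * ((pr j : ℝ) ^ (-s) - (pr j : ℝ) ^ (-s'))| ≤
        C * (B * (|s - s'| * Real.log y) + C₁ * (y : ℝ) ^ (β - 1) + B * ((x : ℝ) ^ (1 - s) + (x : ℝ) ^ (1 - s'))) :=
      hmain (fun j => b j 1) B C₁ hC₁ (fun j => hb j 0) y x hy hyx hS s s' hs hs2 hs' hs2' hsx hsx' _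
    have hq1 : 0 ≤ |s - s'| := abs_nonneg _
    have hq2 : 0 ≤ |s - s'| * Real.log y := by positivity
    have hq3 : |s - s'| ≤ |s - s'| * Real.log y := le_mul_of_one_le_right hq1 hly
    have hq4 : 0 ≤ C₁ * (y : ℝ) ^ (β - 1) := by positivity
    have hq5 : 0 ≤ (x : ℝ) ^ (1 - s) + (x : ℝ) ^ (1 - s') := by positivity
    obtain ⟨a1, ha1⟩ : ∃ a, a = |s - s'| * Real.log y := ⟨_, rfl⟩
    obtain ⟨a2, ha2⟩ : ∃ a, a = C₁ * (y : ℝ) ^ (β - 1) := ⟨_, rfl⟩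
    obtain ⟨a3, ha3⟩ : ∃ a, a = (x : ℝ) ^ (1 - s) + (x : ℝ) ^ (1 - s') := ⟨_, rfl⟩
    rw [← ha1, ← ha2, ← ha3] at b3
    rw [← ha1] at hq2 hq3
    rw [← ha2] at hq4
    rw [← ha3] at hq5
    rw [← ha1, ← ha2, ← ha3]
    have c1 : 4 * B * |s - s'| * W ≤ 4 * B * W * (a1 + a2 + a3) := by
      have h1 : |s - s'| ≤ a1 + a2 + a3 := by linarith
      have h2 : 0 ≤ 4 * B * W := by positivity
      have h3 := mul_le_mul_of_nonneg_left h1 h2
      linarith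
    have c3 : C * (B * a1 + a2 + B * a3) ≤ C * (B + 1) * (a1 + a2 + a3) := by
      rw [mul_assoc]
      apply mul_le_mul_of_nonneg_left _ hC
      nlinarith [mul_nonneg hB hq4]
    refine (abs_add_le _ _).trans ?_
    calc _ ≤ 4 * B * W * (a1 + a2 + a3) + C * (B + 1) * (a1 + a2 + a3) := by
          linarith
      _ = _ := by ring
  have hlim : Tendsto (fun T : ℕ => |∑ j ∈ range T, dp b s j - ∑ j ∈ range T, dp b s' j|) atTop
      (𝓝 |∑' j : ℕ, dp b s j - ∑' j : ℕ, dp b s' j|) := by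
    apply Tendsto.abs
    exact ((dp_summable hB hb hs).hasSum.tendsto_sum_nat).sub ((dp_summable hB hb hs').hasSum.tendsto_sum_nat)
  exact le_of_tendsto hlim (Eventually.of_forall hfin)

end Pool.Agent.N842.TW
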