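import Pool.Agent.N842.TW.Gs
import Pool.Agent.N842.SQ.Wr

/-!
# The traces on the cohomology of products of Weil restrictions
-/

set_option autoImplicit false

namespace Pool.Agent.N842.TW

open Finset NumberField IsDedekindDomain
open Pool.Agent.N842.ST (kap eta)
open Pool.Agent.N842.SQ

/-- the exponents -/
def qe {N D : ℕ} (θ : Fin N × Fin D →₀ ℕ) (c : Fin N) (k : Fin D) : ℕ := θ (c, k) / ((k : ℕ) + 1)

/-- the coefficients -/
noncomputable def kp {N D : ℕ} (θ : Fin N × Fin D →₀ ℕ) : ℝ :=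
  ∏ i : Fin N × Fin D, if ((i.2 : ℕ) + 1) ∣ θ i then (-1 / ((i.2 : ℕ) + 1 : ℕ)) ^ (θ i / ((i.2 : ℕ) + 1)) / ((θ i / ((i.2 : ℕ) + 1)).factorial : ℝ) else 0

lemma qe_weight {N D d : ℕ} (θ : Fin N × Fin D →₀ ℕ) (hθ : θ ∈ finsuppAntidiag (univ : Finset (Fin N × Fin D)) d) (hd : d ≤ D) (c : Fin N) :
    ∑ k : Fin D, ((k : ℕ) + 1) * qe θ c k ≤ D := by
  rw [mem_finsuppAntidiag] at hθ
  have h1 : ∑ k : Fin D, ((k : ℕ) + 1) * qe θ c k ≤ ∑ k : Fin D, θ (c, k) := by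
    refine sum_le_sum fun k _ => ?_
    unfold qe
    exact Nat.mul_div_le _ _
  have h2 : ∑ k : Fin D, θ (c, k) ≤ ∑ i : Fin N × Fin D, θ i := by
    rw [Fintype.sum_prod_type]
    exact single_le_sum (f := fun c => ∑ k : Fin D, θ (c, k)) (fun c _ => Nat.zero_le _) (mem_univ c)
  have h3 : ∑ i : Fin N × Fin D, θ i = d := hθ.1
  omega

/-- the expansion -/
lemma nw_mono {N D : ℕ} (t : Fin N → Fin D → ℝ) (d : ℕ) :
    nw (∑ i : Fin N × Fin D, sg ((i.2 : ℕ) + 1) (-t i.1 i.2)) d =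
      ∑ θ ∈ finsuppAntidiag (univ : Finset (Fin N × Fin D)) d, kp θ * ∏ c, ∏ k, t c k ^ qe θ c k := by
  rw [nw_prod]
  refine sum_congr rfl fun θ _ => ?_
  rw [← Fintype.prod_prod_type' (f := fun c k => t c k ^ qe θ c k)]
  unfold kp
  rw [← prod_mul_distrib]
  refine prod_congr rfl fun i _ => ?_
  rw [nw_sg _ (Nat.succ_ne_zero _)]
  unfold qe
  split_ifs with h
  · have e : (-t i.1 i.2 / (((i.2 : ℕ) + 1 : ℕ) : ℝ)) = (-1 / (((i.2 : ℕ) + 1 : ℕ) : ℝ)) * t i.1 i.2 := by ring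
    rw [e, mul_pow]
    ring
  · rw [zero_mul]

/-- the main values -/
lemma nw_main {N D : ℕ} (v η : Fin N → Fin D → ℝ) (d : ℕ) :
    nw (∑ i : Fin N × Fin D, gs ((i.2 : ℕ) + 1) (v i.1 i.2) (η i.1 i.2)) d =
      ∑ θ ∈ finsuppAntidiag (univ : Finset (Fin N × Fin D)) d, kp θ * ∏ c, ∏ k, nm (v c k) (η c k) (qe θ c k) := by
  rw [nw_prod]
  refine sum_congr rfl fun θ _ => ?_
  rw [← Fintype.prod_prod_type' (f := fun c k => nm (v c k) (η c k) (qe θ c k))]
  unfold kp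
  rw [← prod_mul_distrib]
  refine prod_congr rfl fun i _ => ?_
  rw [nw_gs _ (Nat.succ_ne_zero _)]
  unfold qe
  split_ifs with h
  · ring
  · rw [zero_mul]

lemma sum_sg {D : ℕ} (f : Fin D → ℝ) (m : ℕ) (h1 : 1 ≤ m) (h2 : m ≤ D) : ∑ k : Fin D, sg ((k : ℕ) + 1) (f k) m = f ⟨m - 1, by omega⟩ := by
  rw [sum_eq_single ⟨m - 1, by omega⟩]
  · unfold sg
    rw [if_pos]
    show m = m - 1 + 1
    omega
  · intro k _ hk
    unfold sg
    rw [if_neg]
    intro h
    apply hk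
    apply Fin.ext
    show (k : ℕ) = m - 1
    omega
  · intro h
    exact absurd (mem_univ _) h

lemma sum_sg2 {D : ℕ} (f : Fin D → ℝ) (m : ℕ) (h1 : 1 ≤ m) (h2 : m ≤ D) :
    ∑ k : Fin D, sg (2 * ((k : ℕ) + 1)) (f k) m = if h : Even m then f ⟨m / 2 - 1, by obtain ⟨r, hr⟩ := h; omega⟩ else 0 := by
  by_cases he : Even m
  · rw [dif_pos he]
    obtain ⟨r, hr⟩ := he
    rw [sum_eq_single ⟨m / 2 - 1, by omega⟩]
    · unfold sg
      rw [if_pos]
      show m = 2 * (m / 2 - 1 + 1)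
      omega
    · intro k _ hk
      unfold sg
      rw [if_neg]
      intro h
      apply hk
      apply Fin.ext
      show (k : ℕ) = m / 2 - 1
      omega
    · intro h
      exact absurd (mem_univ _) h
  · rw [dif_neg he]
    apply sum_eq_zero
    intro k _
    unfold sg
    rw [if_neg]
    intro h
    apply he
    rw [h]
    exact even_two_mul _

section
variable {K : Type} [Field K] [NumberField K]

/-- the traces of the powers of the Frobenius automorphisms on `H ^ 1` -/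
noncomputable def T1 {N D : ℕ} (k p : ℕ) [Fact p.Prime] (c : Fin (N * D) → 𝓞 K) : ℝ :=
  ∑ e : Fin N, tr 2 k p (fun i => c (finProdFinEquiv (e, i)))

/-- the traces on `H ^ d` -/
noncomputable def Ac {N D : ℕ} (d k p : ℕ) [Fact p.Prime] (c : Fin (N * D) → 𝓞 K) : ℝ := nw (fun m => - T1 (m * k) p c) d

variable (K) in
/-- the expected values -/
noncomputable def Ec (N d k p : ℕ) [Fact p.Prime] : ℝ := if Even d then nw (fun j => (N : ℝ) * hm K p (j * k)) (d / 2) else 0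

omit [NumberField K] in
lemma Ac_one {N D : ℕ} (d p : ℕ) [Fact p.Prime] (hd : d ≤ D) (c : Fin (N * D) → 𝓞 K) :
    Ac d 1 p c = ∑ θ ∈ finsuppAntidiag (univ : Finset (Fin N × Fin D)) d, kp θ * HF 2 D N p (qe θ) c := by
  unfold HF
  rw [← nw_mono (fun e k => tr 2 ((k : ℕ) + 1) p (fun i => c (finProdFinEquiv (e, i))))]
  unfold Ac
  apply nw_congr
  intro m hm1 hm2
  rw [Finset.sum_apply, Fintype.sum_prod_type]
  unfold T1
  rw [mul_one, ← sum_neg_distrib]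
  refine sum_congr rfl fun e _ => ?_
  rw [sum_sg (fun k : Fin D => - tr 2 ((k : ℕ) + 1) p (fun i => c (finProdFinEquiv (e, i)))) m hm1 (by omega)]
  have e1 : m - 1 + 1 = m := by omega
  show - tr 2 m p _ = - tr 2 (m - 1 + 1) p _
  rw [e1]

lemma Ec_one {N : ℕ} (D d p : ℕ) [hp : Fact p.Prime] (hp2 : p ≠ 2) (hd : d ≤ D) :
    Ec K N d 1 p = ∑ θ ∈ finsuppAntidiag (univ : Finset (Fin N × Fin D)) d, kp θ * HM K 2 D N p (qe θ) := by
  unfold HM h1
  rw [← nw_main (N := N) (fun _ k => (((k : ℕ) + 1 : ℕ) : ℝ) * kap p 2 ((k : ℕ) + 1) * hm K p ((k : ℕ) + 1))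
    (fun _ k => -(eta p 2 ((k : ℕ) + 1) * hm K p (((k : ℕ) + 1) / 2)))]
  have hodd : Odd p := hp.out.odd_of_ne_two hp2
  have hkap : ∀ k : ℕ, kap p 2 k = 1 := by
    intro k
    unfold kap
    rw [if_pos]
    · norm_num
    · have h1 : Odd (p ^ k) := hodd.pow
      obtain ⟨r, hr⟩ := h1
      rw [hr]
      omega
  have heta : ∀ k : ℕ, eta p 2 k = if Even k then 1 else 0 := by
    intro k
    unfold eta
    have h1 : 2 ∣ p ^ (k / 2) + 1 := by
      have h1 : Odd (p ^ (k / 2)) := hodd.pow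
      obtain ⟨r, hr⟩ := h1
      rw [hr]
      omega
    by_cases h : Even k
    · rw [if_pos ⟨h, h1⟩, if_pos h]
      norm_num
    · rw [if_neg (fun h2 => h h2.1), if_neg h]
  unfold Ec
  rw [← nw_even (fun j => (N : ℝ) * hm K p (j * 1)) d]
  apply nw_congr
  intro m hm1 hm2
  rw [Finset.sum_apply, Fintype.sum_prod_type]
  simp only [gs, sum_add_distrib]
  rw [sum_const, card_univ, Fintype.card_fin, sum_const, card_univ, Fintype.card_fin, nsmul_eq_mul, nsmul_eq_mul,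
    sum_sg (fun k : Fin D => - -(eta p 2 ((k : ℕ) + 1) * hm K p (((k : ℕ) + 1) / 2))) m hm1 (by omega),
    sum_sg2 (fun k : Fin D => (((k : ℕ) + 1 : ℕ) : ℝ) * kap p 2 ((k : ℕ) + 1) * hm K p ((k : ℕ) + 1) / (((k : ℕ) + 1 : ℕ) : ℝ)) m hm1 (by omega)]
  have e1 : m - 1 + 1 = m := by omega
  have e2 : (- -(eta p 2 (m - 1 + 1) * hm K p ((m - 1 + 1) / 2))) = eta p 2 m * hm K p (m / 2) := by rw [e1, neg_neg]
  dsimp only
  rw [e2, heta]
  by_cases he : Even m
  · rw [if_pos he, if_pos he, dif_pos he, hkap]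
    obtain ⟨r, hr⟩ := he
    have e3 : m / 2 - 1 + 1 = m / 2 := by omega
    rw [e3, mul_one, mul_one]
    have e4 : ((m / 2 : ℕ) : ℝ) ≠ 0 := by
      have : m / 2 ≠ 0 := by omega
      exact_mod_cast this
    rw [mul_div_cancel_left₀ _ e4]
    ring
  · rw [if_neg he, if_neg he, dif_neg he]
    ring

end

end Pool.Agent.N842.TW
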