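import Pool.Agent.N842.TW.Nw

/-!
# The generating function of the moments of normal variables
-/

set_option autoImplicit false

namespace Pool.Agent.N842.TW

open Finset
open Pool.Agent.N842.SQ (nm nm_zero nm_smul)
open Pool.Agent.Y57.FD.Mom (normal)

lemma normal_fact (j : ℕ) : normal (2 * j) * (2 ^ j * (j.factorial : ℝ)) = ((2 * j).factorial : ℝ) := by
  unfold normal
  rw [if_pos (even_two_mul j)]
  cases j with
  | zero => simp
  | succ j =>
    have e : 2 * (j + 1) = 2 * j + 1 + 1 := by ring
    have h1 := Nat.factorial_eq_mul_doubleFactorial (2 * j + 1)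
    have h2 := Nat.doubleFactorial_two_mul (j + 1)
    rw [e] at h2 ⊢
    rw [h1, h2, Nat.add_sub_cancel]
    push_cast
    ring

/-- the generating function of the moments -/
lemma nw_nm (v η : ℝ) (r : ℕ) : nw (sg 1 η + sg 2 v) r = nm v η r / r.factorial := by
  have h := congrArg (PowerSeries.coeff r) (PS_add (sg 2 v) (sg 1 η))
  rw [PowerSeries.coeff_mul, PS_coeff] at h
  simp only [PS_coeff] at h
  rw [sum_anti (nw (sg 2 v)) (nw (sg 1 η)) r] at h
  rw [add_comm, ← h]
  unfold nm
  rw [sum_div]
  refine sum_congr rfl fun i hi => ?_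
  rw [mem_range] at hi
  rw [nw_sg 2 two_ne_zero, nw_sg 1 one_ne_zero, if_pos (one_dvd _), Nat.div_one, Nat.cast_one, div_one]
  have hc : ((r.choose i : ℕ) : ℝ) * (i.factorial * (r - i).factorial) = r.factorial := by
    have := Nat.choose_mul_factorial_mul_factorial (show i ≤ r by omega)
    rw [← this]
    push_cast
    ring
  have h1 : ((i.factorial : ℕ) : ℝ) ≠ 0 := by exact_mod_cast i.factorial_ne_zero
  have h2 : (((r - i).factorial : ℕ) : ℝ) ≠ 0 := by exact_mod_cast (r - i).factorial_ne_zero
  have h3 : ((r.factorial : ℕ) : ℝ) ≠ 0 := by exact_mod_cast r.factorial_ne_zero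
  have hc' : ((r.choose i : ℕ) : ℝ) / r.factorial = 1 / (i.factorial * (r - i).factorial) := by
    rw [div_eq_div_iff h3 (mul_ne_zero h1 h2), hc, one_mul]
  by_cases hd : 2 ∣ i
  · rw [if_pos hd]
    obtain ⟨j, rfl⟩ := hd
    rw [Nat.mul_div_cancel_left _ (by norm_num)]
    have h4 := normal_fact j
    have h5 : ((j.factorial : ℕ) : ℝ) ≠ 0 := by exact_mod_cast j.factorial_ne_zero
    have h6 : normal (2 * j) = ((2 * j).factorial : ℝ) / (2 ^ j * (j.factorial : ℝ)) := by
      rw [eq_div_iff (by positivity)]
      exact h4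
    have e : (r.choose (2 * j) : ℝ) * η ^ (r - 2 * j) * (normal (2 * j) * v ^ j) / (r.factorial : ℝ) =
        ((r.choose (2 * j) : ℝ) / (r.factorial : ℝ)) * (η ^ (r - 2 * j) * (normal (2 * j) * v ^ j)) := by ring
    rw [e, hc', h6]
    push_cast
    rw [div_pow]
    field_simp
  · rw [if_neg hd, zero_mul]
    have h4 : normal i = 0 := by
      unfold normal
      rw [if_neg]
      intro h
      exact hd h.two_dvd
    rw [h4]
    ring

/-- powers of the variable -/
lemma nw_dil (k : ℕ) (hk : k ≠ 0) (a : ℕ → ℝ) (m : ℕ) :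
    nw (fun m => if k ∣ m then (k : ℝ) * a (m / k) else 0) m = if k ∣ m then nw a (m / k) else 0 := by
  classical
  symm
  have hk1 : 0 < k := Nat.pos_of_ne_zero hk
  apply nw_unique (fun m => if k ∣ m then (k : ℝ) * a (m / k) else 0) (fun m => if k ∣ m then nw a (m / k) else 0)
  · simp [nw_zero]
  intro n
  by_cases h : k ∣ n + 1
  · obtain ⟨r, hr⟩ := h
    obtain ⟨r, rfl⟩ : ∃ r', r = r' + 1 := ⟨r - 1, by
      have : r ≠ 0 := by
        rintro rfl
        rw [mul_zero] at hr
        omega
      omega⟩
    rw [if_pos ⟨r + 1, hr⟩]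
    have h2 := nw_succ a r
    have h3 : ∑ j ∈ range (n + 1), (if k ∣ j + 1 then (k : ℝ) * a ((j + 1) / k) else 0) * (if k ∣ n - j then nw a ((n - j) / k) else 0) =
        k * ∑ j ∈ range (r + 1), a (j + 1) * nw a (r - j) := by
      have hinj : ∀ i ∈ range (r + 1), ∀ i' ∈ range (r + 1), k * (i + 1) - 1 = k * (i' + 1) - 1 → i = i' := by
        intro i _ i' _ he
        have h4 : 1 ≤ k * (i + 1) := Nat.mul_pos hk1 (Nat.succ_pos i)
        have h5 : 1 ≤ k * (i' + 1) := Nat.mul_pos hk1 (Nat.succ_pos i')
        have h6 : k * (i + 1) = k * (i' + 1) := by omega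
        have := Nat.eq_of_mul_eq_mul_left hk1 h6
        omega
      have hsub : (range (r + 1)).image (fun i => k * (i + 1) - 1) ⊆ range (n + 1) := by
        intro j hj
        rw [mem_image] at hj
        obtain ⟨i, hi, rfl⟩ := hj
        rw [mem_range] at hi ⊢
        have h4 : k * (i + 1) ≤ k * (r + 1) := Nat.mul_le_mul_left k (by omega)
        have h5 : 1 ≤ k * (i + 1) := Nat.mul_pos hk1 (Nat.succ_pos i)
        omega
      rw [← sum_subset hsub, sum_image (fun i hi i' hi' he => hinj i hi i' hi' he), mul_sum]
      · refine sum_congr rfl fun i hi => ?_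
        rw [mem_range] at hi
        have h5 : 1 ≤ k * (i + 1) := Nat.mul_pos hk1 (Nat.succ_pos i)
        have e1 : k * (i + 1) - 1 + 1 = k * (i + 1) := by omega
        have e2 : n - (k * (i + 1) - 1) = k * (r - i) := by
          have h6 : k * (r + 1) = k * (i + 1) + k * (r - i) := by
            rw [← mul_add]
            congr 1
            omega
          omega
        rw [e1, e2, if_pos (dvd_mul_right _ _), if_pos (dvd_mul_right _ _), Nat.mul_div_cancel_left _ hk1, Nat.mul_div_cancel_left _ hk1]
        ring
      · intro j hj hj2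
        rw [mem_range] at hj
        rw [if_neg, zero_mul]
        rintro ⟨i, hi⟩
        apply hj2
        rw [mem_image]
        have hi0 : i ≠ 0 := by
          rintro rfl
          rw [mul_zero] at hi
          omega
        refine ⟨i - 1, ?_, ?_⟩
        · rw [mem_range]
          have h6 : k * i ≤ k * (r + 1) := by omega
          have := Nat.le_of_mul_le_mul_left h6 hk1
          omega
        · have e1 : i - 1 + 1 = i := by omega
          rw [e1]
          omega
    rw [h3, ← h2, hr, Nat.mul_div_cancel_left _ hk1]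
    have e4 : ((n : ℝ) + 1) = k * ((r : ℝ) + 1) := by exact_mod_cast hr
    rw [e4]
    ring
  · rw [if_neg h, mul_zero]
    symm
    apply sum_eq_zero
    intro j hj
    rw [mem_range] at hj
    by_cases h1 : k ∣ j + 1
    · have h2 : ¬ k ∣ n - j := by
        intro h2
        apply h
        have e : n + 1 = (j + 1) + (n - j) := by omega
        rw [e]
        exact dvd_add h1 h2
      rw [if_neg h2, mul_zero]
    · rw [if_neg h1, zero_mul]

/-- the sequence of a normal variable -/
noncomputable def gs (k : ℕ) (v η : ℝ) (m : ℕ) : ℝ := sg k (-η) m + sg (2 * k) (v / k) m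

/-- **the generating function for a power of the variable** -/
lemma nw_gs (k : ℕ) (hk : k ≠ 0) (v η : ℝ) (m : ℕ) :
    nw (gs k v η) m = if k ∣ m then (-1 / k) ^ (m / k) * nm v η (m / k) / (m / k).factorial else 0 := by
  have hk0 : (k : ℝ) ≠ 0 := by exact_mod_cast hk
  have hk1 : 0 < k := Nat.pos_of_ne_zero hk
  have h1 := nw_dil k hk (sg 1 (-1 / k * η) + sg 2 ((-1 / k) ^ 2 * v)) m
  have h2 : (fun m => if k ∣ m then (k : ℝ) * (sg 1 (-1 / k * η) + sg 2 ((-1 / k) ^ 2 * v)) (m / k) else 0) = gs k v η := by
    funext m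
    unfold gs
    by_cases hd : k ∣ m
    · rw [if_pos hd]
      obtain ⟨r, rfl⟩ := hd
      rw [Nat.mul_div_cancel_left _ hk1, Pi.add_apply]
      unfold sg
      by_cases hr1 : r = 1
      · rw [hr1, if_pos rfl, if_neg (by norm_num), if_pos (by rw [mul_one]), if_neg (by omega)]
        field_simp
        ring
      · by_cases hr2 : r = 2
        · rw [hr2, if_neg (by norm_num), if_pos rfl, if_neg (by omega), if_pos (by ring)]
          field_simp
          ring
        · rw [if_neg hr1, if_neg hr2, if_neg, if_neg]
          · ring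
          · intro h
            apply hr2
            have : k * r = k * 2 := by rw [h]; ring
            exact Nat.eq_of_mul_eq_mul_left hk1 this
          · intro h
            apply hr1
            have : k * r = k * 1 := by rw [h]; ring
            exact Nat.eq_of_mul_eq_mul_left hk1 this
    · rw [if_neg hd]
      unfold sg
      rw [if_neg, if_neg, add_zero]
      · intro h
        apply hd
        rw [h]
        exact dvd_mul_left _ _
      · intro h
        apply hd
        rw [h]
  rw [h2] at h1
  rw [h1]
  split_ifs with hd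
  · rw [nw_nm, nm_smul]
  · rfl

end Pool.Agent.N842.TW
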