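import Pool.Agent.N842.TW.Ac

/-!
# The law for the traces on the cohomology of products of Weil restrictions
-/

set_option autoImplicit false

namespace Pool.Agent.N842.TW

open Finset NumberField IsDedekindDomain
open Pool.Agent.N842.ST (kap eta gfFin)
open Pool.Agent.N842.SQ
open Pool.Agent.TH894.NF (pr pr_prime)
open Pool.Agent.Y57.FD (digit exceptions)
open Pool.Agent.N842.HS (factNth cf)

attribute [local instance] rsFin vpFin vpDec gfFin

section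
variable {K : Type} [Field K] [NumberField K]

variable (K) in
/-- a bound for the traces -/
noncomputable def P0 (D : ℕ) : ℝ := (Module.finrank ℤ (𝓞 K) : ℝ) * (Module.finrank ℤ (𝓞 K) * ((2 * (D + 2 + 1) : ℕ) : ℝ))

variable (K) in
lemma P0_nonneg (D : ℕ) : 0 ≤ P0 K D := by
  unfold P0
  positivity

lemma tr_le {D : ℕ} (hD : Nat.Coprime D 2) (k : ℕ) (hk : k ≠ 0) (p : ℕ) [hp : Fact p.Prime] (c : Fin D → 𝓞 K) : |tr 2 k p c| ≤ P0 K D := by
  have h1 := sum_hom (K := K) p (GaloisField p k) (fun φ => val (GaloisField p k) 2 (fun i => φ (c i)))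
    (fun v => - A 2 D (dg p (GaloisField p k) / dg p (Rs v.1)) (Rs v.1) (fun i => rh v.1 (c i)))
    (fun v ψ => val_hom p (Rs v.1) (GaloisField p k) ψ 2 (fun i => rh v.1 (c i)))
  unfold tr
  rw [h1]
  refine (abs_sum_le_sum_abs _ _).trans ((sum_le_sum (g := fun _ => (Module.finrank ℤ (𝓞 K) : ℝ) * ((2 * (D + 2 + 1) : ℕ) : ℝ)) fun v _ => ?_).trans ?_)
  · rw [dg_gal p k hk]
    split_ifs with h
    · rw [abs_mul, abs_neg, Nat.abs_cast]
      have h2 : dv p v.1 = dg p (Rs v.1) := rfl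
      have h3 : k / dg p (Rs v.1) ≠ 0 := by
        rw [← h2]
        obtain ⟨r, hr⟩ := h
        have h4 := (card_rs p v).2
        rw [hr, Nat.mul_div_cancel_left _ (by omega)]
        rintro rfl
        rw [mul_zero] at hr
        exact hk hr
      apply mul_le_mul _ (A_le 2 Nat.prime_two D hD _ h3 (Rs v.1) _) (abs_nonneg _) (Nat.cast_nonneg _)
      exact_mod_cast dv_le p v
    · rw [abs_zero]
      positivity
  · rw [sum_const, nsmul_eq_mul]
    unfold P0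
    apply mul_le_mul_of_nonneg_right _ (by positivity)
    exact_mod_cast vp_card K p

lemma hm_le (D k : ℕ) (hk : k ≠ 0) (p : ℕ) [hp : Fact p.Prime] : |hm K p k| ≤ P0 K D := by
  unfold hm
  rw [homs_eq K p k hk]
  refine (abs_sum_le_sum_abs _ _).trans ((sum_le_sum (g := fun _ => (Module.finrank ℤ (𝓞 K) : ℝ) * ((2 * (D + 2 + 1) : ℕ) : ℝ)) fun v _ => ?_).trans ?_)
  · split_ifs with h
    · rw [Nat.abs_cast]
      have h1 : (dv p v.1 : ℝ) ≤ Module.finrank ℤ (𝓞 K) := by exact_mod_cast dv_le p v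
      have h2 : (1 : ℝ) ≤ ((2 * (D + 2 + 1) : ℕ) : ℝ) := by exact_mod_cast (by omega : 1 ≤ 2 * (D + 2 + 1))
      have h3 : (0 : ℝ) ≤ Module.finrank ℤ (𝓞 K) := Nat.cast_nonneg _
      nlinarith
    · rw [abs_zero]
      positivity
  · rw [sum_const, nsmul_eq_mul]
    unfold P0
    apply mul_le_mul_of_nonneg_right _ (by positivity)
    exact_mod_cast vp_card K p

variable (K) in
/-- a bound for the traces on `H ^ d` -/
noncomputable def BA (N D d : ℕ) : ℝ := (1 + N * P0 K D) ^ d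

variable (K) in
lemma BA_nonneg (N D d : ℕ) : 0 ≤ BA K N D d := by
  unfold BA
  have := P0_nonneg K D
  positivity

lemma Ac_le {N D : ℕ} (hD : Nat.Coprime D 2) (d k : ℕ) (hk : k ≠ 0) (p : ℕ) [hp : Fact p.Prime] (c : Fin (N * D) → 𝓞 K) :
    |Ac d k p c| ≤ BA K N D d := by
  unfold Ac BA
  have hP := P0_nonneg K D
  apply nw_le _ _ (by positivity)
  intro m hm
  rw [abs_neg]
  unfold T1
  refine (abs_sum_le_sum_abs _ _).trans ((sum_le_sum (g := fun _ => P0 K D) fun e _ => tr_le hD (m * k) ?_ p _).trans ?_)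
  · exact Nat.mul_ne_zero (by omega) hk
  · rw [sum_const, card_univ, Fintype.card_fin, nsmul_eq_mul]

lemma Ec_le (N D d k : ℕ) (hk : k ≠ 0) (p : ℕ) [hp : Fact p.Prime] : |Ec K N d k p| ≤ BA K N D d := by
  unfold Ec
  split_ifs with h
  · have hP := P0_nonneg K D
    have h1 : |nw (fun j => (N : ℝ) * hm K p (j * k)) (d / 2)| ≤ (1 + N * P0 K D) ^ (d / 2) := by
      apply nw_le _ _ (by positivity)
      intro m hm'
      rw [abs_mul, Nat.abs_cast]
      apply mul_le_mul_of_nonneg_left _ (Nat.cast_nonneg _)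
      exact hm_le D (m * k) (Nat.mul_ne_zero (by omega) hk) p
    refine h1.trans ?_
    unfold BA
    apply pow_le_pow_right₀ _ (Nat.div_le_self _ _)
    have : 0 ≤ (N : ℝ) * P0 K D := by positivity
    linarith
  · rw [abs_zero]
    exact BA_nonneg K N D d

open Classical in
/-- **the law** -/
theorem lawW (K : Type) [Field K] [NumberField K] (b g D N : ℕ) (ω : Fin g → 𝓞 K) (hω : Submodule.span ℤ (Set.range ω) = ⊤)
    (hD : Nat.Coprime D 2) (hb : 2 ≤ b) (hd : 1 ≤ N * D * g) (A B : ℕ) :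
    ∃ c : ℝ, 0 < c ∧ ∃ C₁ : ℝ, 0 ≤ C₁ ∧ ∃ y₀ : ℕ, ∀ (L r : Fin (N * D * g) → ℕ) (y : ℕ), (∀ i, 2 * r i ≤ L i) → y₀ ≤ y →
    ∀ N' : Fin (N * D * g) → ℕ, (∀ i, N' i < b ^ L i) →
    ∀ f : Fin (N * D * g) → ℕ → ℕ, (∀ i j, f i j < b ∧ f i j ≠ digit b j (N' i)) →
    ∀ Ψ : Set (ℕ → ℝ), Ψ.Finite → Ψ.ncard ≤ y ^ B → (∀ ψ ∈ Ψ, ∀ j, |ψ j| ≤ 1) →
    ∀ E : (Fin (N * D * g) → ℕ) → Prop,
    (∀ m : Fin (N * D * g) → ℕ, (∀ x : ℕ, y ≤ x → (∀ i, (x : ℝ) ≤ Real.exp (c * r i)) → ∀ d ≤ D, ∀ ψ ∈ Ψ,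
      |∑ j ∈ range x, ψ j * (Ac (N := N) (D := D) d 1 (Nat.nth Nat.Prime j) (cf ω m) - Ec K N d 1 (Nat.nth Nat.Prime j))| ≤
        C₁ * (x : ℝ) ^ (3 / 4 : ℝ)) → E m) →
    (exceptions b L r N' f E : ℝ) ≤ 1 / (y : ℝ) ^ A * ∏ i, ((L i).choose (r i) : ℝ) := by
  obtain ⟨c, hc, y₀, h⟩ := genW K b g 2 D N 1 ω hω Nat.prime_two hD hb hd le_rfl (1 / 4) (by norm_num) A B
  -- the constants
  obtain ⟨S, hS⟩ : ∃ S : ℕ → ℝ, S = fun d => ∑ θ ∈ finsuppAntidiag (univ : Finset (Fin N × Fin D)) d, |kp θ| := ⟨_, rfl⟩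
  have hS0 : ∀ d, 0 ≤ S d := by
    intro d
    rw [hS]
    exact sum_nonneg fun θ _ => abs_nonneg _
  -- the difference at the first prime number
  obtain ⟨U, hU⟩ : ∃ U : ℕ → ℝ, U = fun d => |∑ θ ∈ finsuppAntidiag (univ : Finset (Fin N × Fin D)) d, kp θ * HM K 2 D N (Nat.nth Nat.Prime 0) (qe θ) -
    Ec K N d 1 (Nat.nth Nat.Prime 0)| := ⟨_, rfl⟩
  have hU0 : ∀ d, 0 ≤ U d := by
    intro d
    rw [hU]
    exact abs_nonneg _
  refine ⟨c, hc, ∑ d ∈ range (D + 1), (S d + U d), sum_nonneg fun d _ => add_nonneg (hS0 d) (hU0 d), y₀ + 1,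
    fun L r y hrL hy N' hN' f hf Ψ hΨ hΨ2 hΨ1 E hE => ?_⟩
  obtain ⟨W, hW⟩ : ∃ W : ℕ → Set (ℕ → ℝ), W = fun x => if y ≤ x then Ψ else ∅ := ⟨_, rfl⟩
  have hWc : ∀ x, (W x).Finite ∧ (W x).ncard ≤ x ^ B := by
    intro x
    rw [hW]
    beta_reduce
    split_ifs with h
    · exact ⟨hΨ, hΨ2.trans (Nat.pow_le_pow_left h B)⟩
    · exact ⟨Set.finite_empty, by rw [Set.ncard_empty]; exact Nat.zero_le _⟩
  have hW1 : ∀ x, ∀ w ∈ W x, ∀ k, |w k| ≤ 1 := by
    intro x w hw k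
    rw [hW] at hw
    beta_reduce at hw
    split_ifs at hw with h
    · exact hΨ1 w hw k
    · exact absurd hw (Set.notMem_empty _)
  refine h L r y hrL (by omega) N' hN' f hf W hWc hW1 E fun m hm => hE m fun x hyx hxr d hdD ψ hψ => ?_
  have hx1 : 1 ≤ x := by omega
  have hx1' : (1 : ℝ) ≤ x := by exact_mod_cast hx1
  have hx0 : (0 : ℝ) < x := by linarith
  obtain ⟨X, hX⟩ : ∃ X : ℝ, X = (x : ℝ) ^ (3 / 4 : ℝ) := ⟨_, rfl⟩
  have hX1 : 1 ≤ X := by
    rw [hX]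
    exact Real.one_le_rpow hx1' (by norm_num)
  rw [← hX]
  have hψW : ψ ∈ W x := by
    rw [hW]
    beta_reduce
    rw [if_pos hyx]
    exact hψ
  have key : ∀ θ ∈ finsuppAntidiag (univ : Finset (Fin N × Fin D)) d,
      |∑ j ∈ range x, ψ j * (HF 2 D N (Nat.nth Nat.Prime j) (qe θ) (cf ω m) - HM K 2 D N (Nat.nth Nat.Prime j) (qe θ))| ≤ X := by
    intro θ hθ
    have h1 := hm x hyx hxr ψ hψW (fun _ => qe θ) (fun _ c => qe_weight θ hθ hdD c)
    simp only [Fin.prod_univ_one] at h1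
    rw [← sum_sub_distrib] at h1
    have h2 : Real.sqrt (max 1 (∑ k ∈ range x, ψ k ^ 2)) * (x : ℝ) ^ (1 / 4 : ℝ) ≤ X := by
      have h3 : Real.sqrt (max 1 (∑ k ∈ range x, ψ k ^ 2)) ≤ Real.sqrt x := by
        apply Real.sqrt_le_sqrt
        apply max_le hx1'
        have h4 : ∀ k ∈ range x, ψ k ^ 2 ≤ 1 := by
          intro k _
          rw [← sq_abs]
          exact pow_le_one₀ (abs_nonneg _) (hΨ1 ψ hψ k)
        refine (sum_le_sum h4).trans ?_
        rw [sum_const, card_range, nsmul_eq_mul, mul_one]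
      have h5 : Real.sqrt x * (x : ℝ) ^ (1 / 4 : ℝ) = X := by
        rw [hX, Real.sqrt_eq_rpow, ← Real.rpow_add hx0]
        norm_num
      rw [← h5]
      exact mul_le_mul_of_nonneg_right h3 (by positivity)
    refine le_trans (le_of_eq ?_) (h1.trans h2)
    congr 1
    refine sum_congr rfl fun j _ => ?_
    have e1 : FF ω 2 D N (qe θ) (pr (j + ((0 : Fin 1) : ℕ))) m = HF 2 D N (Nat.nth Nat.Prime j) (qe θ) (cf ω m) := by
      show FF ω 2 D N (qe θ) (Nat.nth Nat.Prime (j + 0)) m = _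
      rw [add_zero]
      exact FF_eq ω 2 D N (qe θ) (Nat.nth Nat.Prime j) m
    have e2 : MM K 2 D N (qe θ) (pr (j + ((0 : Fin 1) : ℕ))) = HM K 2 D N (Nat.nth Nat.Prime j) (qe θ) := by
      show MM K 2 D N (qe θ) (Nat.nth Nat.Prime (j + 0)) = _
      rw [add_zero]
      exact MM_eq 2 D N (qe θ) (Nat.nth Nat.Prime j)
    rw [e1, e2]
    ring
  have hpt : ∀ j, ψ j * (Ac (N := N) (D := D) d 1 (Nat.nth Nat.Prime j) (cf ω m) - Ec K N d 1 (Nat.nth Nat.Prime j)) =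
      (∑ θ ∈ finsuppAntidiag (univ : Finset (Fin N × Fin D)) d, kp θ *
        (ψ j * (HF 2 D N (Nat.nth Nat.Prime j) (qe θ) (cf ω m) - HM K 2 D N (Nat.nth Nat.Prime j) (qe θ)))) +
      ψ j * (∑ θ ∈ finsuppAntidiag (univ : Finset (Fin N × Fin D)) d, kp θ * HM K 2 D N (Nat.nth Nat.Prime j) (qe θ) -
        Ec K N d 1 (Nat.nth Nat.Prime j)) := by
    intro j
    rw [Ac_one d _ hdD]
    have e3 : ∑ θ ∈ finsuppAntidiag (univ : Finset (Fin N × Fin D)) d, kp θ *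
        (ψ j * (HF 2 D N (Nat.nth Nat.Prime j) (qe θ) (cf ω m) - HM K 2 D N (Nat.nth Nat.Prime j) (qe θ))) =
        ψ j * (∑ θ ∈ finsuppAntidiag (univ : Finset (Fin N × Fin D)) d, kp θ * HF 2 D N (Nat.nth Nat.Prime j) (qe θ) (cf ω m) -
          ∑ θ ∈ finsuppAntidiag (univ : Finset (Fin N × Fin D)) d, kp θ * HM K 2 D N (Nat.nth Nat.Prime j) (qe θ)) := by
      rw [← sum_sub_distrib, mul_sum]
      exact sum_congr rfl fun θ _ => by ring
    rw [e3]
    ring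
  have hzero : ∀ j, 1 ≤ j → ∑ θ ∈ finsuppAntidiag (univ : Finset (Fin N × Fin D)) d, kp θ * HM K 2 D N (Nat.nth Nat.Prime j) (qe θ) -
        Ec K N d 1 (Nat.nth Nat.Prime j) = 0 := by
    intro j hj
    rw [sub_eq_zero]
    symm
    apply Ec_one D d _ _ hdD
    intro h2
    have h3 : Nat.nth Nat.Prime j = Nat.nth Nat.Prime 0 := by rw [h2, Nat.nth_prime_zero_eq_two]
    have := Nat.nth_injective Nat.infinite_setOfPred_prime h3
    omega
  rw [sum_congr rfl (fun j _ => hpt j), sum_add_distrib]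
  have b1 : |∑ j ∈ range x, ∑ θ ∈ finsuppAntidiag (univ : Finset (Fin N × Fin D)) d, kp θ *
        (ψ j * (HF 2 D N (Nat.nth Nat.Prime j) (qe θ) (cf ω m) - HM K 2 D N (Nat.nth Nat.Prime j) (qe θ)))| ≤ S d * X := by
    rw [sum_comm, hS]
    beta_reduce
    rw [sum_mul]
    refine (abs_sum_le_sum_abs _ _).trans (sum_le_sum fun θ hθ => ?_)
    rw [← mul_sum, abs_mul]
    exact mul_le_mul_of_nonneg_left (key θ hθ) (abs_nonneg _)
  have b2 : |∑ j ∈ range x, ψ j * (∑ θ ∈ finsuppAntidiag (univ : Finset (Fin N × Fin D)) d, kp θ * HM K 2 D N (Nat.nth Nat.Prime j) (qe θ) -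
        Ec K N d 1 (Nat.nth Nat.Prime j))| ≤ U d := by
    rw [sum_eq_single_of_mem 0 (mem_range.2 (by omega))]
    · rw [abs_mul, hU]
      beta_reduce
      calc _ ≤ 1 * |∑ θ ∈ finsuppAntidiag (univ : Finset (Fin N × Fin D)) d, kp θ * HM K 2 D N (Nat.nth Nat.Prime 0) (qe θ) -
          Ec K N d 1 (Nat.nth Nat.Prime 0)| := mul_le_mul_of_nonneg_right (hΨ1 ψ hψ 0) (abs_nonneg _)
        _ = _ := one_mul _
    · intro j _ hj
      rw [hzero j (by omega), mul_zero]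
  have b3 : S d + U d ≤ ∑ d ∈ range (D + 1), (S d + U d) :=
    single_le_sum (f := fun d => S d + U d) (fun d _ => add_nonneg (hS0 d) (hU0 d)) (mem_range.2 (by omega))
  have b4 : U d ≤ U d * X := le_mul_of_one_le_right (hU0 d) hX1
  refine (abs_add_le _ _).trans ((add_le_add b1 b2).trans ?_)
  calc S d * X + U d ≤ (S d + U d) * X := by linarith
    _ ≤ _ := mul_le_mul_of_nonneg_right b3 (by linarith)

end

end Pool.Agent.N842.TW
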