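import Pool.Agent.N842.SQ.Nm

/-!
# The coefficients of the exponentials of power series (the formulas of Newton)
-/

set_option autoImplicit false

namespace Pool.Agent.N842.TW

open Finset
open Pool.Agent.N842.SQ (nm nm_zero)
open Pool.Agent.Y57.FD.Mom (normal)

/-- the coefficients of `exp (∑ p_k T ^ k / k)` -/
noncomputable def nw (p : ℕ → ℝ) : ℕ → ℝ
  | 0 => 1
  | n + 1 => (∑ j : Fin (n + 1), p (j + 1) * nw p (n - j)) / (n + 1)

lemma nw_zero (p : ℕ → ℝ) : nw p 0 = 1 := by rw [nw]

lemma nw_succ (p : ℕ → ℝ) (n : ℕ) : ((n : ℝ) + 1) * nw p (n + 1) = ∑ j ∈ range (n + 1), p (j + 1) * nw p (n - j) := by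
  rw [nw, mul_div_cancel₀ _ (by positivity), Fin.sum_univ_eq_sum_range (fun j => p (j + 1) * nw p (n - j)) (n + 1)]

lemma nw_unique (p f : ℕ → ℝ) (h0 : f 0 = 1) (h : ∀ n : ℕ, ((n : ℝ) + 1) * f (n + 1) = ∑ j ∈ range (n + 1), p (j + 1) * f (n - j)) (n : ℕ) :
    f n = nw p n := by
  induction n using Nat.strong_induction_on with
  | _ n ih =>
    cases n with
    | zero => rw [h0, nw_zero]
    | succ n =>
      have h1 := h n
      have h2 := nw_succ p n
      have h3 : ∑ j ∈ range (n + 1), p (j + 1) * f (n - j) = ∑ j ∈ range (n + 1), p (j + 1) * nw p (n - j) := by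
        refine sum_congr rfl fun j hj => ?_
        rw [ih (n - j) (by omega)]
      rw [h3, ← h2] at h1
      exact mul_left_cancel₀ (by positivity) h1

/-- the generating function -/
noncomputable def PS (f : ℕ → ℝ) : PowerSeries ℝ := PowerSeries.mk f

lemma PS_coeff (f : ℕ → ℝ) (n : ℕ) : PowerSeries.coeff n (PS f) = f n := PowerSeries.coeff_mk n f

lemma sum_anti (f g : ℕ → ℝ) (n : ℕ) : ∑ x ∈ antidiagonal n, f x.1 * g x.2 = ∑ j ∈ range (n + 1), f j * g (n - j) :=
  Finset.Nat.sum_antidiagonal_eq_sum_range_succ (fun a b => f a * g b) n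

lemma PS_deriv (p : ℕ → ℝ) : PowerSeries.derivative ℝ (PS (nw p)) = PS (fun n => p (n + 1)) * PS (nw p) := by
  ext n
  rw [PowerSeries.coeff_derivative, PowerSeries.coeff_mul, PS_coeff]
  simp only [PS_coeff]
  rw [sum_anti (fun n => p (n + 1)) (nw p) n, ← nw_succ]
  ring

/-- the exponential of the sum -/
lemma PS_add (p p' : ℕ → ℝ) : PS (nw p) * PS (nw p') = PS (nw (p + p')) := by
  have hd : PowerSeries.derivative ℝ (PS (nw p) * PS (nw p')) = PS (fun n => (p + p') (n + 1)) * (PS (nw p) * PS (nw p')) := by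
    rw [Derivation.leibniz, PS_deriv, PS_deriv, smul_eq_mul, smul_eq_mul]
    have e : PS (fun n => (p + p') (n + 1)) = PS (fun n => p (n + 1)) + PS (fun n => p' (n + 1)) := by
      ext n
      rw [map_add, PS_coeff, PS_coeff, PS_coeff]
      rfl
    rw [e]
    ring
  ext n
  rw [PS_coeff]
  refine nw_unique (p + p') (fun n : ℕ => PowerSeries.coeff n (PS (nw p) * PS (nw p'))) ?_ (fun n => ?_) n
  · beta_reduce
    rw [PowerSeries.coeff_zero_eq_constantCoeff_apply, map_mul, ← PowerSeries.coeff_zero_eq_constantCoeff_apply,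
      ← PowerSeries.coeff_zero_eq_constantCoeff_apply, PS_coeff, PS_coeff, nw_zero, nw_zero, mul_one]
  · have h := congrArg (PowerSeries.coeff n) hd
    rw [PowerSeries.coeff_derivative, PowerSeries.coeff_mul n (PS (fun n => (p + p') (n + 1))) (PS (nw p) * PS (nw p'))] at h
    simp only [PS_coeff] at h
    rw [mul_comm, h, sum_anti (fun n => (p + p') (n + 1)) (fun n => PowerSeries.coeff n (PS (nw p) * PS (nw p'))) n]

lemma nw_zero_seq (n : ℕ) : nw 0 n = if n = 0 then 1 else 0 := by
  symm
  apply nw_unique 0 (fun n => if n = 0 then 1 else 0) (if_pos rfl)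
  intro n
  rw [if_neg (Nat.succ_ne_zero n), mul_zero]
  symm
  apply sum_eq_zero
  intro j _
  show (0 : ℝ) * _ = 0
  rw [zero_mul]

lemma PS_zero : PS (nw 0) = 1 := by
  ext n
  rw [PS_coeff, nw_zero_seq, PowerSeries.coeff_one]

lemma PS_prod {ι : Type} (s : Finset ι) (P : ι → ℕ → ℝ) : ∏ i ∈ s, PS (nw (P i)) = PS (nw (∑ i ∈ s, P i)) := by
  classical
  induction s using Finset.induction_on with
  | empty => rw [prod_empty, sum_empty, PS_zero]
  | insert a s ha ih => rw [prod_insert ha, sum_insert ha, ih, PS_add]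

/-- the products -/
lemma nw_prod {ι : Type} [DecidableEq ι] (s : Finset ι) (P : ι → ℕ → ℝ) (n : ℕ) :
    nw (∑ i ∈ s, P i) n = ∑ θ ∈ finsuppAntidiag s n, ∏ i ∈ s, nw (P i) (θ i) := by
  have h := congrArg (PowerSeries.coeff n) (PS_prod s P)
  rw [PS_coeff, PowerSeries.coeff_prod] at h
  rw [← h]
  simp only [PS_coeff]

/-- one term -/
noncomputable def sg (k : ℕ) (a : ℝ) (m : ℕ) : ℝ := if m = k then a else 0

lemma nw_sg (k : ℕ) (hk : k ≠ 0) (a : ℝ) (m : ℕ) : nw (sg k a) m = if k ∣ m then (a / k) ^ (m / k) / (m / k).factorial else 0 := by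
  symm
  apply nw_unique (sg k a) (fun m => if k ∣ m then (a / k) ^ (m / k) / (m / k).factorial else 0)
  · simp
  intro n
  have hk0 : (k : ℝ) ≠ 0 := by exact_mod_cast hk
  have hk1 : 1 ≤ k := Nat.one_le_iff_ne_zero.2 hk
  by_cases hkn : k ≤ n + 1
  · rw [sum_eq_single (k - 1)]
    · have e1 : k - 1 + 1 = k := by omega
      rw [e1]
      unfold sg
      rw [if_pos rfl]
      have e2 : n - (k - 1) = n + 1 - k := by omega
      rw [e2]
      by_cases hd : k ∣ n + 1
      · obtain ⟨r, hr⟩ := hd
        have hr1 : 1 ≤ r := by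
          by_contra h
          have : r = 0 := by omega
          rw [this, mul_zero] at hr
          omega
        obtain ⟨r, rfl⟩ : ∃ r', r = r' + 1 := ⟨r - 1, by omega⟩
        have e3 : n + 1 - k = k * r := by
          rw [hr, mul_add, mul_one]
          omega
        rw [e3, if_pos (Dvd.intro _ hr.symm), if_pos (Dvd.intro _ rfl), hr, Nat.mul_div_cancel_left _ hk1, Nat.mul_div_cancel_left _ hk1]
        have e4 : ((n : ℝ) + 1) = k * ((r : ℝ) + 1) := by exact_mod_cast hr
        rw [e4, Nat.factorial_succ]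
        push_cast
        have h1 : ((r : ℝ) + 1) ≠ 0 := by positivity
        have h2 : ((r.factorial : ℕ) : ℝ) ≠ 0 := by exact_mod_cast r.factorial_ne_zero
        rw [pow_succ]
        field_simp
      · rw [if_neg hd, if_neg, mul_zero, mul_zero]
        intro h
        apply hd
        have h3 : n + 1 = (n + 1 - k) + k := by omega
        rw [h3]
        exact dvd_add h (dvd_refl k)
    · intro j _ hj
      unfold sg
      rw [if_neg (by omega), zero_mul]
    · intro h
      exact absurd (mem_range.2 (by omega)) h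
  · rw [if_neg, mul_zero]
    · symm
      apply sum_eq_zero
      intro j hj
      rw [mem_range] at hj
      unfold sg
      rw [if_neg (by omega), zero_mul]
    · intro h
      have := Nat.le_of_dvd (by omega) h
      omega

lemma nw_le (p : ℕ → ℝ) (P : ℝ) (hP : 0 ≤ P) (hp : ∀ m, 1 ≤ m → |p m| ≤ P) (n : ℕ) : |nw p n| ≤ (1 + P) ^ n := by
  induction n using Nat.strong_induction_on with
  | _ n ih =>
    cases n with
    | zero => rw [nw_zero, abs_one, pow_zero]
    | succ n =>
      have h2 := nw_succ p n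
      have hn : (0 : ℝ) < (n : ℝ) + 1 := by positivity
      have h3 : ((n : ℝ) + 1) * |nw p (n + 1)| ≤ ((n : ℝ) + 1) * (P * (1 + P) ^ n) := by
        rw [← abs_of_pos hn, ← abs_mul, abs_of_pos hn, h2]
        refine (abs_sum_le_sum_abs _ _).trans ((sum_le_sum (g := fun _ => P * (1 + P) ^ n) fun j hj => ?_).trans (le_of_eq ?_))
        · rw [abs_mul]
          apply mul_le_mul (hp _ (by omega)) _ (abs_nonneg _) hP
          refine (ih (n - j) (by omega)).trans ?_
          exact pow_le_pow_right₀ (by linarith) (Nat.sub_le _ _)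
        · rw [sum_const, card_range, nsmul_eq_mul]
          push_cast
          ring
      have h4 := le_of_mul_le_mul_left h3 hn
      refine h4.trans ?_
      rw [pow_succ]
      have h5 : 0 ≤ (1 + P) ^ n := by positivity
      nlinarith

/-- only the first terms matter -/
lemma nw_congr (p p' : ℕ → ℝ) (n : ℕ) (h : ∀ m, 1 ≤ m → m ≤ n → p m = p' m) : nw p n = nw p' n := by
  induction n using Nat.strong_induction_on with
  | _ n ih =>
    cases n with
    | zero => rw [nw_zero, nw_zero]
    | succ n =>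
      have h1 := nw_succ p n
      have h2 := nw_succ p' n
      have h3 : ∑ j ∈ range (n + 1), p (j + 1) * nw p (n - j) = ∑ j ∈ range (n + 1), p' (j + 1) * nw p' (n - j) := by
        refine sum_congr rfl fun j hj => ?_
        rw [mem_range] at hj
        rw [h (j + 1) (by omega) (by omega), ih (n - j) (by omega) (fun m h1 h2 => h m h1 (by omega))]
      rw [h3, ← h2] at h1
      exact mul_left_cancel₀ (by positivity) h1

/-- terms of even degree only -/
lemma nw_even (a : ℕ → ℝ) (m : ℕ) : nw (fun m => if Even m then 2 * a (m / 2) else 0) m = if Even m then nw a (m / 2) else 0 := by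
  symm
  apply nw_unique (fun m => if Even m then 2 * a (m / 2) else 0) (fun m => if Even m then nw a (m / 2) else 0)
  · simp [nw_zero]
  intro n
  by_cases h : Even (n + 1)
  · obtain ⟨r, hr⟩ := h
    obtain ⟨r, rfl⟩ : ∃ r', r = r' + 1 := ⟨r - 1, by omega⟩
    have hn : n = 2 * r + 1 := by omega
    subst hn
    rw [if_pos ⟨r + 1, hr⟩]
    have e1 : (2 * r + 1 + 1) / 2 = r + 1 := by omega
    rw [e1]
    have h2 := nw_succ a r
    have h3 : ∑ j ∈ range (2 * r + 1 + 1), (if Even (j + 1) then 2 * a ((j + 1) / 2) else 0) * (if Even (2 * r + 1 - j) then nw a ((2 * r + 1 - j) / 2) else 0) =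
        2 * ∑ j ∈ range (r + 1), a (j + 1) * nw a (r - j) := by
      have h4 : ∀ R : ℕ → ℝ, ∀ r : ℕ, ∑ j ∈ range (2 * r + 1 + 1), R j = ∑ j ∈ range (r + 1), (R (2 * j) + R (2 * j + 1)) := by
        intro R r
        induction r with
        | zero =>
          rw [mul_zero, zero_add, sum_range_succ, sum_range_succ, sum_range_zero, sum_range_one]
          simp
        | succ r ih =>
          have e : 2 * (r + 1) + 1 + 1 = (2 * r + 1 + 1) + 1 + 1 := by ring
          rw [e, sum_range_succ, sum_range_succ, ih, sum_range_succ _ (r + 1)]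
          have e2 : 2 * (r + 1) = 2 * r + 1 + 1 := by ring
          rw [e2]
          ring
      rw [h4, mul_sum]
      refine sum_congr rfl fun j hj => ?_
      rw [mem_range] at hj
      have e2 : ¬ Even (2 * j + 1) := by
        rw [Nat.not_even_iff_odd]
        exact ⟨j, rfl⟩
      have e3 : Even (2 * j + 1 + 1) := ⟨j + 1, by ring⟩
      have e4 : 2 * r + 1 - (2 * j + 1) = 2 * (r - j) := by omega
      have e5 : (2 * j + 1 + 1) / 2 = j + 1 := by omega
      have e6 : 2 * (r - j) / 2 = r - j := by omega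
      rw [if_neg e2, zero_mul, zero_add, if_pos e3, e4, if_pos (even_two_mul _), e5, e6]
      ring
    rw [h3, ← h2]
    push_cast
    ring
  · rw [if_neg h, mul_zero]
    symm
    apply sum_eq_zero
    intro j hj
    rw [mem_range] at hj
    by_cases h1 : Even (j + 1)
    · have h2 : ¬ Even (n - j) := by
        intro h2
        apply h
        have e : n + 1 = (j + 1) + (n - j) := by omega
        rw [e]
        exact h1.add h2
      rw [if_neg h2, mul_zero]
    · rw [if_neg h1, zero_mul]

end Pool.Agent.N842.TW
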