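import Pool.Agent.N842.TW.Fin
import Pool.Agent.N842.TP.Lf

/-!
# The product of the Euler factors of the induced trivial representation is the Dedekind zeta function
-/

set_option autoImplicit false

namespace Pool.Agent.N842.TW

open Finset NumberField IsDedekindDomain Filter Topology
open Pool.Agent.N842.SQ
open Pool.Agent.TH894.NF (pr pr_prime)
open Pool.Agent.H921R2.TatePole (ZK)
open Pool.Agent.N842.TP (term term_eq term_hasSum logZ_hasSum)

/-- the signs -/
def sgn (z : ℕ → ℕ → ℕ → ℝ) : ℕ → ℕ → ℕ → ℝ := fun e p k => (-1) ^ e * z e p k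

section
variable {K : Type} [Field K] [NumberField K]

attribute [local instance] rsFin vpFin

lemma norm_dv (p : ℕ) [hp : Fact p.Prime] (v : Vp K p) : Ideal.absNorm v.1.asIdeal = p ^ dv p v.1 := by
  have h : Ideal.absNorm v.1.asIdeal = Nat.card (Rs v.1) := by
    rw [Ideal.absNorm_apply, Submodule.cardQuot_apply]
    rfl
  rw [h, Nat.card_eq_fintype_card, (card_rs p v).1]

/-- the Euler factor of one place -/
lemma place_hasSum (j : ℕ) (v : Vp K (pr j)) {s : ℝ} (hs : 1 ≤ s) :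
    HasSum (fun k : ℕ => (if dv (pr j) v.1 ∣ k + 1 then (dv (pr j) v.1 : ℝ) else 0) * trm j k s)
      (-Real.log (1 - ((Ideal.absNorm v.1.asIdeal : ℕ) : ℝ) ^ (-s))) := by
  obtain ⟨f, hf⟩ : ∃ f : ℕ, f = dv (pr j) v.1 := ⟨_, rfl⟩
  have hf1 : 1 ≤ f := by
    rw [hf]
    exact (card_rs (pr j) v).2
  rw [← hf]
  have hinj : Function.Injective (fun m : ℕ => f * (m + 1) - 1) := by
    intro m m' h
    simp only at h
    have h1 : 1 ≤ f * (m + 1) := Nat.one_le_iff_ne_zero.2 (Nat.mul_ne_zero (by omega) (by omega))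
    have h2 : 1 ≤ f * (m' + 1) := Nat.one_le_iff_ne_zero.2 (Nat.mul_ne_zero (by omega) (by omega))
    have h3 : f * (m + 1) = f * (m' + 1) := by omega
    have h4 := Nat.eq_of_mul_eq_mul_left (by omega) h3
    omega
  rw [← hinj.hasSum_iff]
  · have h1 := term_hasSum v.1 hs
    refine h1.congr_fun fun m => ?_
    show (if f ∣ (f * (m + 1) - 1) + 1 then (f : ℝ) else 0) * trm j (f * (m + 1) - 1) s = term v.1 m s
    have h2 : 1 ≤ f * (m + 1) := Nat.one_le_iff_ne_zero.2 (Nat.mul_ne_zero (by omega) (by omega))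
    have h3 : f * (m + 1) - 1 + 1 = f * (m + 1) := by omega
    rw [h3, if_pos (Dvd.intro _ rfl), trm_eq, term_eq, norm_dv (pr j) v, ← hf, h3]
    have h4 : (((f * (m + 1) - 1 : ℕ) : ℝ) + 1) = f * ((m : ℝ) + 1) := by
      exact_mod_cast h3
    rw [h4]
    have h5 := p2 j
    have h6 : ((((pr j) ^ f : ℕ) : ℝ) ^ (-s)) ^ (m + 1) = ((pr j : ℝ) ^ (-s)) ^ (f * (m + 1)) := by
      push_cast
      rw [pow_mul]
      congr 1
      rw [← Real.rpow_natCast, ← Real.rpow_natCast, ← Real.rpow_mul (by linarith), ← Real.rpow_mul (by linarith)]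
      congr 1
      ring
    rw [h6]
    have h7 : (f : ℝ) ≠ 0 := by exact_mod_cast (by omega : f ≠ 0)
    have h8 : ((m : ℝ) + 1) ≠ 0 := by positivity
    field_simp
  · intro k hk
    rw [if_neg, zero_mul]
    rintro ⟨m, hm⟩
    apply hk
    have hm0 : m ≠ 0 := by
      rintro rfl
      rw [mul_zero] at hm
      omega
    refine ⟨m - 1, ?_⟩
    show f * (m - 1 + 1) - 1 = k
    have : m - 1 + 1 = m := by omega
    rw [this, ← hm]
    omega

/-- the Euler factor of one prime number -/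
lemma hom_dp (N : ℕ) {s : ℝ} (hs : 1 ≤ s) (j : ℕ) :
    dp (fun j k => (N : ℝ) * hm K (pr j) k) s j = N * ∑ v : Vp K (pr j), -Real.log (1 - ((Ideal.absNorm v.1.asIdeal : ℕ) : ℝ) ^ (-s)) := by
  unfold dp
  have h1 : HasSum (fun k : ℕ => (N : ℝ) * ∑ v : Vp K (pr j), (if dv (pr j) v.1 ∣ k + 1 then (dv (pr j) v.1 : ℝ) else 0) * trm j k s)
      (N * ∑ v : Vp K (pr j), -Real.log (1 - ((Ideal.absNorm v.1.asIdeal : ℕ) : ℝ) ^ (-s))) :=
    (hasSum_sum fun v _ => place_hasSum j v hs).mul_left _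
  rw [← h1.tsum_eq]
  refine tsum_congr fun k => ?_
  show (N : ℝ) * hm K (pr j) (k + 1) * trm j k s = _
  unfold hm
  rw [homs_eq K (pr j) (k + 1) (by omega), ← sum_mul, mul_assoc]

variable (K) in
/-- the places, arranged -/
noncomputable def places : ((j : ℕ) × Vp K (pr j)) ≃ HeightOneSpectrum (𝓞 K) :=
  Equiv.ofBijective (fun x => x.2.1) (by
    constructor
    · rintro ⟨j, v, hv⟩ ⟨j', v', hv'⟩ h
      simp only at h
      subst h
      have h1 : j = j' := by
        by_contra hne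
        have h2 : pr j ≠ pr j' := fun h => hne (Nat.nth_injective Nat.infinite_setOfPred_prime h)
        have h3 : Nat.Coprime (pr j) (pr j') := (Nat.coprime_primes (pr_prime j) (pr_prime j')).2 h2
        have h4 := (Nat.isCoprime_iff_coprime.2 h3)
        obtain ⟨a, b, hab⟩ := h4
        have h5 : (1 : 𝓞 K) ∈ v.asIdeal := by
          have h6 : ((a * (pr j : ℤ) + b * (pr j' : ℤ) : ℤ) : 𝓞 K) = 1 := by
            rw [hab]
            exact Int.cast_one
          rw [← h6]
          push_cast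
          exact v.asIdeal.add_mem (v.asIdeal.mul_mem_left _ hv) (v.asIdeal.mul_mem_left _ hv')
        exact v.isPrime.ne_top ((Ideal.eq_top_iff_one _).2 h5)
      subst h1
      rfl
    · intro v
      obtain ⟨q, hq⟩ := CharP.exists (Rs v)
      have h1 : q.Prime := CharP.char_is_prime (Rs v) q
      have h2 : (q : 𝓞 K) ∈ v.asIdeal := by
        rw [← rh_ker v, map_natCast]
        exact CharP.cast_eq_zero (Rs v) q
      have h3 : pr (Nat.count Nat.Prime q) = q := Nat.nth_count h1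
      exact ⟨⟨Nat.count Nat.Prime q, ⟨v, by rw [h3]; exact h2⟩⟩, rfl⟩)

/-- **the Dedekind zeta function** -/
theorem zeta_eq (N : ℕ) {s : ℝ} (hs : 1 < s) :
    Real.exp (∑' j : ℕ, dp (fun j k => (N : ℝ) * hm K (pr j) k) s j) = (ZK K s) ^ N := by
  have h0 := Pool.Agent.Y125.XT.ZK_pos' (K := K) hs
  have h1 : HasSum (fun x : (j : ℕ) × Vp K (pr j) => -Real.log (1 - ((Ideal.absNorm x.2.1.asIdeal : ℕ) : ℝ) ^ (-s))) (Real.log (ZK K s)) :=
    ((places K).hasSum_iff (f := fun v : HeightOneSpectrum (𝓞 K) => -Real.log (1 - ((Ideal.absNorm v.asIdeal : ℕ) : ℝ) ^ (-s)))).2 (logZ_hasSum hs)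
  have h2 : HasSum (fun j : ℕ => ∑ v : Vp K (pr j), -Real.log (1 - ((Ideal.absNorm v.1.asIdeal : ℕ) : ℝ) ^ (-s))) (Real.log (ZK K s)) :=
    h1.sigma fun j => hasSum_fintype _
  have h3 : ∑' j : ℕ, dp (fun j k => (N : ℝ) * hm K (pr j) k) s j = N * Real.log (ZK K s) := by
    rw [← (h2.mul_left (N : ℝ)).tsum_eq]
    exact tsum_congr fun j => hom_dp N hs.le j
  rw [h3, mul_comm, Real.exp_mul, Real.exp_log h0, Real.rpow_natCast]

end

end Pool.Agent.N842.TW
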